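import Pool.Agent.W314.BA.Stm

set_option autoImplicit false

/-! Almost everywhere convergence for bounded functions. -/

open MeasureTheory Set Filter Topology Real
open scoped ENNReal NNReal

namespace Pool.Agent.W883.BA

open Pool.Agent.W314.BA

noncomputable section

theorem norm_ee (t : ℝ) : ‖ee t‖ = 1 := by
  unfold ee
  have : (2 * π * Complex.I * t : ℂ) = ((2 * π * t : ℝ) : ℂ) * Complex.I := by
    push_cast
    ring
  rw [this, Complex.norm_exp_ofReal_mul_I]

theorem ee_zero : ee 0 = 1 := by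
  simp [ee]

theorem ee_add (s t : ℝ) : ee (s + t) = ee s * ee t := by
  unfold ee
  rw [← Complex.exp_add]
  congr 1
  push_cast
  ring

theorem ee_meas : Measurable ee := by
  unfold ee
  fun_prop

theorem kf_Fs (s : ℕ) (hs : 2 ≤ s) : KF (Fs s) := by
  constructor
  · unfold Fs
    apply ContinuousOn.inv₀ (by fun_prop)
    intro t ht
    have : (1 : ℝ) ≤ t := ht
    positivity
  · refine ⟨1, fun t ht => ?_⟩
    unfold Fs
    rw [abs_of_nonneg (by positivity), one_mul]
    apply inv_anti₀ (by positivity)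
    exact pow_le_pow_right₀ (by linarith) hs

variable {Y : Type} [MeasurableSpace Y] [MulAction G Y] {μ : Measure Y} {c : G → Y → ℤ}

theorem smul_meas' (h : Sys μ c) (y : Y) : Measurable (fun g : G => g • y) :=
  h.smul_meas.comp (measurable_id.prodMk measurable_const)

theorem c_meas' (h : Sys μ c) (y : Y) : Measurable (fun g : G => c g y) :=
  h.c_meas.comp (measurable_id.prodMk measurable_const)

theorem phi_meas (h : Sys μ c) (θ : ℝ) {f : Y → ℂ} (hf : Measurable f) (y : Y) :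
    Measurable (fun g : G => ee (θ * c g y) * f (g • y)) := by
  apply Measurable.mul
  · apply ee_meas.comp
    apply Measurable.const_mul
    exact (measurable_of_countable (fun n : ℤ => (n : ℝ))).comp (c_meas' h y)
  · exact hf.comp (smul_meas' h y)

/-- the smoothing changes the averages only a little -/
theorem close (h : Sys μ c) {s : ℕ} {ε : ℝ}
    (hs : ∀ x : ℝ, 2 ≤ x → ∀ φ : G → ℂ, Measurable φ → (∀ g, ‖φ g‖ ≤ 1) →
      ‖∫ g, φ g ∂(bm x) - ((cs s)⁻¹ : ℂ) * ∫ g, ∫ v, (Fs s (hh v) : ℂ) * φ (v * g) ∂hm ∂(bm x)‖ ≤ ε)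
    (θ : ℝ) {f : Y → ℂ} (hf : Measurable f) (hf1 : ∀ y, ‖f y‖ ≤ 1) (x : ℝ) (hx : 2 ≤ x) (y : Y) :
    ‖tw c θ (bm x) f y - ((cs s)⁻¹ : ℂ) * tw c θ (bm x) (op c θ (Fs s) f) y‖ ≤ ε := by
  have h1 := hs x hx (fun g : G => ee (θ * c g y) * f (g • y)) (phi_meas h θ hf y) (fun g => by
    rw [norm_mul, norm_ee, one_mul]
    exact hf1 _)
  have h2 : tw c θ (bm x) (op c θ (Fs s) f) y =
      ∫ g, ∫ v, (Fs s (hh v) : ℂ) * (ee (θ * c (v * g) y) * f ((v * g) • y)) ∂hm ∂(bm x) := by
    unfold tw op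
    congr 1
    ext g
    rw [← integral_const_mul]
    congr 1
    ext v
    rw [h.coc, mul_smul]
    have : θ * ((c v (g • y) + c g y : ℤ) : ℝ) = θ * c v (g • y) + θ * c g y := by
      push_cast
      ring
    rw [this, ee_add]
    ring
  rw [h2]
  exact h1

theorem core (h1 : TVStmt) (h3 : AeStmt) (h4 : Basic1Stmt) (h : Sys μ c) (θ : ℝ) {f : Y → ℂ}
    (hf : Measurable f) (hf1 : ∀ y, ‖f y‖ ≤ 1) (κ : ℝ) (hκ : 0 < κ)
    (hdec : ∀ s : ℕ, 2 ≤ s → ∃ C : ℝ, ∀ x : ℝ, 2 ≤ x →
      ∫ y, ‖tw c θ (bm x) (op c θ (Fs s) f) y‖ ^ 2 ∂μ ≤ C * x ^ (-κ)) :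
    ∀ᵐ y ∂μ, Tendsto (fun x => tw c θ (bm x) f y) atTop (𝓝 0) := by
  have hBM : BM f := ⟨hf, 1, hf1⟩
  choose s hs2 hcs hs using fun k : ℕ => h1 (1 / ((k : ℝ) + 1)) (by positivity)
  have hae : ∀ k : ℕ, ∀ᵐ y ∂μ, Tendsto (fun x => tw c θ (bm x) (op c θ (Fs (s k)) f) y) atTop (𝓝 0) := by
    intro k
    obtain ⟨C, hC⟩ := hdec (s k) (hs2 k)
    exact h3 Y μ c h θ _ ((h4 Y μ c h θ f hBM).2.1 _ (kf_Fs _ (hs2 k))) κ C hκ hC
  filter_upwards [ae_all_iff.2 hae] with y hy
  rw [Metric.tendsto_nhds]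
  intro ε hε
  obtain ⟨k, hk⟩ := exists_nat_one_div_lt (half_pos hε)
  have h5 : Tendsto (fun x => ((cs (s k))⁻¹ : ℂ) * tw c θ (bm x) (op c θ (Fs (s k)) f) y) atTop (𝓝 0) := by
    simpa using (hy k).const_mul ((cs (s k))⁻¹ : ℂ)
  filter_upwards [(Metric.tendsto_nhds.1 h5) (ε / 2) (half_pos hε), eventually_ge_atTop 2] with x h6 hx
  rw [dist_zero_right] at h6 ⊢
  have h7 := close h (hs k) θ hf hf1 x hx y
  calc ‖tw c θ (bm x) f y‖ = ‖(tw c θ (bm x) f y - ((cs (s k))⁻¹ : ℂ) *
          tw c θ (bm x) (op c θ (Fs (s k)) f) y) +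
          ((cs (s k))⁻¹ : ℂ) * tw c θ (bm x) (op c θ (Fs (s k)) f) y‖ := by
        congr 1
        ring
    _ ≤ _ := norm_add_le _ _
    _ < ε := by linarith

theorem tw_smul (θ : ℝ) (ν : Measure G) (a : ℂ) (f : Y → ℂ) (y : Y) :
    tw c θ ν (fun z => a * f z) y = a * tw c θ ν f y := by
  unfold tw
  rw [← integral_const_mul]
  congr 1
  ext g
  ring

theorem main (h1 : TVStmt) (h2 : DecayStmt) (h3 : AeStmt) (h4 : Basic1Stmt) (_h5 : Basic2Stmt) :
    GoodStmt := by
  intro Y _ _ μ c h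
  obtain ⟨κ, hκ, d, hd, hdec⟩ := h2 Y μ c h
  haveI := h.prob
  refine ⟨d, hd, ?_, ?_⟩
  · rintro θ f ⟨hf, C, hC⟩ hne
    set M : ℝ := |C| + 1 with hM
    have hM0 : 0 < M := by positivity
    set f1 : Y → ℂ := fun z => ((M⁻¹ : ℝ) : ℂ) * f z with hf1
    have hf1m : Measurable f1 := hf.const_mul _
    have hf1b : ∀ y, ‖f1 y‖ ≤ 1 := by
      intro y
      simp only [hf1]
      rw [norm_mul, Complex.norm_real, Real.norm_eq_abs, abs_of_pos (by positivity),
        inv_mul_le_iff₀ hM0, mul_one]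
      exact (hC y).trans ((le_abs_self C).trans (by linarith))
    have hpos : 0 < κ * ‖ee (d * θ) - 1‖ ^ 2 := by
      have : 0 < ‖ee (d * θ) - 1‖ := norm_pos_iff.2 (sub_ne_zero.2 hne)
      positivity
    have h6 := core h1 h3 h4 h θ hf1m hf1b _ hpos (fun s hs => by
      obtain ⟨C', hC', -⟩ := hdec s hs
      exact ⟨C', fun x hx => hC' θ f1 hf1m hf1b x hx⟩)
    filter_upwards [h6] with y hy
    have h7 : (fun x => tw c θ (bm x) f y) = fun x => (M : ℂ) * tw c θ (bm x) f1 y := by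
      ext x
      rw [← tw_smul]
      congr 1
      ext z
      simp only [hf1]
      rw [← mul_assoc, ← Complex.ofReal_mul, mul_inv_cancel₀ hM0.ne', Complex.ofReal_one, one_mul]
    rw [h7]
    simpa using hy.const_mul (M : ℂ)
  · rintro f ⟨hf, C, hC⟩
    set a : ℂ := ∫ y, f y ∂μ with ha
    have hfi : Integrable f μ :=
      Integrable.of_bound hf.aestronglyMeasurable C (Eventually.of_forall hC)
    set M : ℝ := |C| + ‖a‖ + 1 with hM
    have hM0 : 0 < M := by positivity
    set f1 : Y → ℂ := fun z => ((M⁻¹ : ℝ) : ℂ) * (f z - a) with hf1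
    have hf1m : Measurable f1 := (hf.sub_const a).const_mul _
    have hf1b : ∀ y, ‖f1 y‖ ≤ 1 := by
      intro y
      simp only [hf1]
      rw [norm_mul, Complex.norm_real, Real.norm_eq_abs, abs_of_pos (by positivity),
        inv_mul_le_iff₀ hM0, mul_one]
      refine (norm_sub_le _ _).trans ?_
      have := (hC y).trans (le_abs_self C)
      linarith
    have hf1i : ∫ y, f1 y ∂μ = 0 := by
      simp only [hf1]
      rw [integral_const_mul, integral_sub hfi (integrable_const a), integral_const,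
        probReal_univ, one_smul, ← ha, sub_self, mul_zero]
    have h6 := core h1 h3 h4 h 0 hf1m hf1b _ hκ (fun s hs => by
      obtain ⟨C', -, hC'⟩ := hdec s hs
      exact ⟨C', fun x hx => hC' f1 hf1m hf1b hf1i x hx⟩)
    filter_upwards [h6] with y hy
    have h7 : ∀ᶠ x in atTop, (M : ℂ) * tw c 0 (bm x) f1 y + a = tw c 0 (bm x) f y := by
      filter_upwards [eventually_gt_atTop 1] with x hx
      haveI := bm_prob hx
      rw [← tw_smul]
      have h8 : (fun z => (M : ℂ) * f1 z) = fun z => f z - a := by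
        ext z
        simp only [hf1]
        rw [← mul_assoc, ← Complex.ofReal_mul, mul_inv_cancel₀ hM0.ne', Complex.ofReal_one, one_mul]
      rw [h8]
      unfold tw
      simp only [zero_mul, ee_zero, one_mul]
      have h9 : Integrable (fun g : G => f (g • y)) (bm x) :=
        Integrable.of_bound (hf.comp (smul_meas' h y)).aestronglyMeasurable C
          (Eventually.of_forall fun g => hC _)
      rw [integral_sub h9 (integrable_const a), integral_const, probReal_univ, one_smul,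
        sub_add_cancel]
    refine Tendsto.congr' h7 ?_
    have h10 := (hy.const_mul (M : ℂ)).add_const a
    simpa using h10

end

end Pool.Agent.W883.BA
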